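import Pool.Agent.J4H63.IS.Stm
import Pool.Agent.J4H95.SP.T1

set_option autoImplicit false

/-! # Project IS, (DG): the gadget graph has maximum degree three -/

namespace Pool.Agent.J4H94.IS

open Finset Pool.Agent.J4H64.SS Pool.Agent.J4H95.SP Pool.Agent.J4H63.IS

theorem ix_inj {k : ℕ} (hk : 1 ≤ k) {j j' : ℕ} {p p' : Fin 3} {b b' : Bool} (hj : j < k)
    (hj' : j' < k) (h : ix k hk j p b = ix k hk j' p' b') : j = j' ∧ p = p' ∧ b = b' := by
  have h1 := congrArg Fin.val h
  simp only [ix] at h1
  have hp := p.2
  have hp' := p'.2
  rw [Fin.ext_iff]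
  cases b <;> cases b' <;> simp at h1 ⊢ <;> omega

theorem nx_inj {k : ℕ} {t s : Fin (6 * k)} (h : nx t = nx s) : t = s := by
  have h1 := congrArg Fin.val h
  simp only [nx] at h1
  have ht := t.2
  have hs := s.2
  apply Fin.ext
  have e : ∀ a : ℕ, a < 6 * k → (a + 1) % (6 * k) = if a + 1 = 6 * k then 0 else a + 1 := by
    intro a ha
    split_ifs with h2
    · rw [h2, Nat.mod_self]
    · exact Nat.mod_eq_of_lt (by omega)
  rw [e _ ht, e _ hs] at h1
  split_ifs at h1 <;> omega

theorem el_mem {n : ℕ} (c : Cl n) (h : c.1.Nonempty) (p : Fin 3) : el c h p ∈ c.1 :=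
  (el_spec c h _).2 ⟨p, rfl⟩

/-- the triangle vertex is determined by the cycle vertex -/
theorem jn_left {n k : ℕ} (hk : 1 ≤ k) {x : Cl n → Bool} (hx : Sparse k x) {v : Fin n}
    {i : Fin (6 * k)} {b : Bool} {l l' : Fin n × Bool} {s s' : Fin k} {p p' : Fin 3}
    (h : Jn k hk x l s p v i b) (h' : Jn k hk x l' s' p' v i b) : l = l' ∧ s = s' ∧ p = p' := by
  obtain ⟨c, hc, h1, h2, h3, h4, h5⟩ := h
  obtain ⟨c', hc', h1', h2', h3', h4', h5'⟩ := h'
  have m : (v, !b) ∈ c.1 := h4 ▸ el_mem c hc p
  have m' : (v, !b) ∈ c'.1 := h4' ▸ el_mem c' hc' p'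
  obtain ⟨e1, e2, -⟩ := ix_inj hk (rk_lt hx h1 m) (rk_lt hx h1' m') (h5.symm.trans h5')
  have e := rk_inj h1 m h1' m' e1
  subst e
  have e3 : l = l' := h2.symm.trans h2'
  subst e3
  exact ⟨rfl, Fin.ext (h3.symm.trans h3'), e2⟩

/-- the cycle vertex is determined by the triangle vertex -/
theorem jn_right {n k : ℕ} (hk : 1 ≤ k) {x : Cl n → Bool} {v v' : Fin n}
    {i i' : Fin (6 * k)} {b b' : Bool} {l : Fin n × Bool} {s : Fin k} {p : Fin 3}
    (h : Jn k hk x l s p v i b) (h' : Jn k hk x l s p v' i' b') : v = v' ∧ i = i' ∧ b = b' := by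
  obtain ⟨c, hc, h1, h2, h3, h4, h5⟩ := h
  obtain ⟨c', hc', h1', h2', h3', h4', h5'⟩ := h'
  have m : l ∈ c.1 := h2 ▸ el_mem c hc 0
  have m' : l ∈ c'.1 := h2' ▸ el_mem c' hc' 0
  have e := rk_inj h1 m h1' m' (h3.trans h3'.symm)
  subst e
  have e4 := h4.symm.trans h4'
  rw [Prod.mk.injEq] at e4
  obtain ⟨rfl, e5⟩ := e4
  have e6 : b = b' := by cases b <;> cases b' <;> simp_all
  subst e6
  exact ⟨rfl, h5.trans h5'.symm, rfl⟩

theorem t_DG : S_DG := by
  classical
  intro n k hk x hx u S hS
  rcases u with ⟨v, i, b⟩ | ⟨l, s, p⟩
  · cases hE : x ⟨∅, by simp⟩ with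
    | true =>
      -- complete graphs with four vertices
      let f : Vt n k → ℕ × Bool := fun w => match w with
        | Sum.inl (_, i', b') => (i'.1 % 2, b')
        | Sum.inr _ => (0, true)
      have hmap : ∀ w ∈ S, f w ∈ (({0, 1} ×ˢ {true, false} : Finset (ℕ × Bool)).erase
          (i.1 % 2, b)) := by
        intro w hw
        have hR := hS w hw
        rcases w with ⟨v', i', b'⟩ | ⟨l', s', p'⟩
        · simp only [R, hE, true_and, Bool.true_eq_false, false_and, or_false] at hR
          obtain ⟨-, h2, h3⟩ := hR
          simp only [f, mem_erase, mem_product, mem_insert, mem_singleton, ne_eq, Prod.mk.injEq]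
          refine ⟨fun h => h3 ?_, by omega, by cases b' <;> simp⟩
          rw [Prod.mk.injEq]
          exact ⟨Fin.ext (by omega), h.2.symm⟩
        · simp only [R, hE, Bool.true_eq_false, false_and] at hR
      have hinj : Set.InjOn f (S : Set (Vt n k)) := by
        intro w hw w' hw' h
        have hR := hS w hw
        have hR' := hS w' hw'
        rcases w with ⟨v', i', b'⟩ | ⟨l', s', p'⟩
        · rcases w' with ⟨v'', i'', b''⟩ | ⟨l', s', p'⟩
          · simp only [R, hE, true_and, Bool.true_eq_false, false_and, or_false] at hR hR'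
            obtain ⟨rfl, h2, -⟩ := hR
            obtain ⟨rfl, h2', -⟩ := hR'
            simp only [f, Prod.mk.injEq] at h
            have e : i' = i'' := Fin.ext (by omega)
            rw [e, h.2]
          · simp only [R, hE, Bool.true_eq_false, false_and] at hR'
        · simp only [R, hE, Bool.true_eq_false, false_and] at hR
      have := card_le_card_of_injOn f hmap hinj
      refine this.trans ?_
      rw [card_erase_of_mem]
      · decide
      · have hi : i.1 % 2 = 0 ∨ i.1 % 2 = 1 := by omega
        rcases hi with hi | hi <;> cases b <;> simp [hi]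
    | false =>
      let f : Vt n k → Fin 3 := fun w => match w with
        | Sum.inl (_, i', _) => if i' = i then 0 else 1
        | Sum.inr _ => 2
      have hinj : Set.InjOn f (S : Set (Vt n k)) := by
        intro w hw w' hw' h
        have hR := hS w hw
        have hR' := hS w' hw'
        rcases w with ⟨v', i', b'⟩ | ⟨l', s', p'⟩
        · rcases w' with ⟨v'', i'', b''⟩ | ⟨l', s', p'⟩
          · simp only [R, hE, true_and, Bool.false_eq_true, false_and, false_or] at hR hR'
            obtain ⟨rfl, hR⟩ := hR
            obtain ⟨rfl, hR'⟩ := hR'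
            simp only [f] at h
            have hb : b' = !b := by
              rcases hR with ⟨-, h2⟩ | ⟨h1, h2, -⟩ | ⟨h1, h2, -⟩
              · cases b <;> cases b' <;> simp_all
              · rw [h1, h2]; rfl
              · rw [h1, h2]; rfl
            have hb' : b'' = !b := by
              rcases hR' with ⟨-, h2⟩ | ⟨h1, h2, -⟩ | ⟨h1, h2, -⟩
              · cases b <;> cases b'' <;> simp_all
              · rw [h1, h2]; rfl
              · rw [h1, h2]; rfl
            have hi : i' = i'' := by
              by_cases h1 : i' = i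
              · by_cases h2 : i'' = i
                · rw [h1, h2]
                · rw [if_pos h1, if_neg h2] at h
                  exact absurd h (by decide)
              · by_cases h2 : i'' = i
                · rw [if_neg h1, if_pos h2] at h
                  exact absurd h (by decide)
                · rcases hR with ⟨h3, -⟩ | ⟨h3, h4, h5⟩ | ⟨h3, h4, h5⟩
                  · exact absurd h3.symm h1
                  · rcases hR' with ⟨h3', -⟩ | ⟨h3', h4', h5'⟩ | ⟨h3', h4', h5'⟩
                    · exact absurd h3'.symm h2
                    · rw [h5, h5']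
                    · rw [h3] at h4'; exact absurd h4' (by decide)
                  · rcases hR' with ⟨h3', -⟩ | ⟨h3', h4', h5'⟩ | ⟨h3', h4', h5'⟩
                    · exact absurd h3'.symm h2
                    · rw [h4] at h3'; exact absurd h3' (by decide)
                    · exact nx_inj (h5.symm.trans h5')
            rw [hi, hb, hb']
          · exfalso
            simp only [f] at h
            split_ifs at h
            · exact absurd h (by decide)
            · exact absurd h (by decide)
        · rcases w' with ⟨v'', i'', b''⟩ | ⟨l'', s'', p''⟩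
          · exfalso
            simp only [f] at h
            split_ifs at h
            · exact absurd h (by decide)
            · exact absurd h (by decide)
          · simp only [R, hE, true_and] at hR hR'
            obtain ⟨e1, e2, e3⟩ := jn_left hk hx hR hR'
            rw [e1, e2, e3]
      have := card_le_card_of_injOn (t := univ) f (fun _ _ => mem_univ _) hinj
      simpa using this
  · let f : Vt n k → Fin 3 := fun w => match w with
      | Sum.inl _ => p
      | Sum.inr (_, _, p') => p'
    have hinj : Set.InjOn f (S : Set (Vt n k)) := by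
      intro w hw w' hw' h
      have hR := hS w hw
      have hR' := hS w' hw'
      rcases w with ⟨v', i', b'⟩ | ⟨l', s', p'⟩
      · rcases w' with ⟨v'', i'', b''⟩ | ⟨l'', s'', p''⟩
        · simp only [R] at hR hR'
          obtain ⟨e1, e2, e3⟩ := jn_right hk hR.2 hR'.2
          rw [e1, e2, e3]
        · simp only [R] at hR'
          exact absurd h hR'.2.2
      · rcases w' with ⟨v'', i'', b''⟩ | ⟨l'', s'', p''⟩
        · simp only [R] at hR
          exact absurd h.symm hR.2.2
        · simp only [R] at hR hR'
          obtain ⟨rfl, rfl, -⟩ := hR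
          obtain ⟨rfl, rfl, -⟩ := hR'
          have h' : p' = p'' := h
          rw [h']
    have := card_le_card_of_injOn (t := univ) f (fun _ _ => mem_univ _) hinj
    simpa using this

end Pool.Agent.J4H94.IS
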